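import Pool.Agent.Helper43.RS.Spec

/-!
# BEZ: number of nondegenerate real zeros
-/

namespace Pool.Agent.Helper43.RS

open MvPolynomial Filter Topology

/-- derivative of a polynomial function -/
theorem bez_deriv {N : ℕ} (f : MvPolynomial (Fin N) ℝ) (x : Fin N → ℝ) :
    HasStrictFDerivAt (fun y : Fin N → ℝ => eval y f)
      (∑ i, eval x (pderiv i f) • (ContinuousLinearMap.proj i : (Fin N → ℝ) →L[ℝ] ℝ)) x := by
  induction f using MvPolynomial.induction_on with
  | C a =>
    simp only [eval_C, pderiv_C, map_zero, zero_smul, Finset.sum_const_zero]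
    exact hasStrictFDerivAt_const _ _
  | add p q hp hq =>
    simp only [map_add, add_smul, Finset.sum_add_distrib]
    exact hp.add hq
  | mul_X p i hp =>
    have h := hp.mul (hasStrictFDerivAt_apply (𝕜 := ℝ) i x)
    simp only [map_mul, eval_X]
    refine h.congr_fderiv ?_
    ext v
    simp only [Derivation.leibniz, smul_eq_mul, map_add, map_mul, eval_X, pderiv_X]
    simp [Finset.mul_sum, add_mul, Finset.sum_add_distrib, Pi.single_apply, apply_ite]
    ring_nf

/-- values of a polynomial on a finite set -/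
noncomputable def bezVal {N : ℕ} (S : Finset (Fin N → ℝ)) :
    MvPolynomial (Fin N) ℝ →ₗ[ℝ] (S → ℝ) where
  toFun p s := eval (s : Fin N → ℝ) p
  map_add' p q := by funext s; simp
  map_smul' c p := by funext s; simp

theorem bezVal_apply {N : ℕ} (S : Finset (Fin N → ℝ)) (p : MvPolynomial (Fin N) ℝ) (s : S) :
    bezVal S p s = eval (s : Fin N → ℝ) p := rfl

/-- Lagrange interpolation -/
theorem bez_lagrange {N : ℕ} (S : Finset (Fin N → ℝ)) : Function.Surjective (bezVal S) := by
  classical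
  have key : ∀ s : S, ∃ p, bezVal S p = Pi.single s 1 := by
    intro s
    let Q : S → MvPolynomial (Fin N) ℝ := fun t =>
      ∑ j, C ((s : Fin N → ℝ) j - (t : Fin N → ℝ) j) * (X j - C ((t : Fin N → ℝ) j))
    have hQ : ∀ t u : S, eval (u : Fin N → ℝ) (Q t) =
        ∑ j, ((s : Fin N → ℝ) j - (t : Fin N → ℝ) j) * ((u : Fin N → ℝ) j - (t : Fin N → ℝ) j) := by
      intro t u
      simp [Q]
    have hQ0 : ∀ t : S, eval (t : Fin N → ℝ) (Q t) = 0 := by
      intro t
      rw [hQ]
      simp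
    have hQ1 : ∀ t : S, t ≠ s → eval (s : Fin N → ℝ) (Q t) ≠ 0 := by
      intro t hts h
      rw [hQ] at h
      have h1 := (Finset.sum_eq_zero_iff_of_nonneg (fun j _ => mul_self_nonneg _)).1 h
      apply hts
      apply Subtype.ext
      funext j
      have h2 := h1 j (Finset.mem_univ j)
      have h3 := mul_self_eq_zero.1 h2
      linarith
    let L : MvPolynomial (Fin N) ℝ := ∏ t ∈ Finset.univ.erase s, Q t
    have hL : ∀ u : S, eval (u : Fin N → ℝ) L = ∏ t ∈ Finset.univ.erase s,
        eval (u : Fin N → ℝ) (Q t) := fun u => by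
      simp only [L]
      exact map_prod _ _ _
    have hL1 : eval (s : Fin N → ℝ) L ≠ 0 := by
      rw [hL]
      exact Finset.prod_ne_zero_iff.2 (fun t ht => hQ1 t (Finset.ne_of_mem_erase ht))
    refine ⟨(eval (s : Fin N → ℝ) L)⁻¹ • L, ?_⟩
    funext u
    rw [map_smul, Pi.smul_apply, bezVal_apply, smul_eq_mul]
    by_cases hu : u = s
    · subst hu
      rw [inv_mul_cancel₀ hL1, Pi.single_eq_same]
    · have h0 : eval (u : Fin N → ℝ) L = 0 := by
        rw [hL]
        exact Finset.prod_eq_zero (Finset.mem_erase.2 ⟨hu, Finset.mem_univ u⟩) (hQ0 u)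
      rw [Pi.single_eq_of_ne hu, h0, mul_zero]
  choose p hp using key
  intro y
  refine ⟨∑ s, y s • p s, ?_⟩
  rw [map_sum]
  simp_rw [map_smul, hp]
  funext t
  simp [Finset.sum_apply, Pi.single_apply]

/-- the number of zeros of a system with leading forms `c x_j ^ (d+1)` -/
theorem bez_count {N d : ℕ} (g : Fin N → MvPolynomial (Fin N) ℝ)
    (hg : ∀ j, (g j).totalDegree ≤ d) {c : ℝ} (hc : c ≠ 0) (S : Finset (Fin N → ℝ))
    (hS : ∀ p ∈ S, ∀ j, eval p (g j) + c * p j ^ (d + 1) = 0) : S.card ≤ (d + 1) ^ N := by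
  classical
  let b : (Fin N → Fin (d + 1)) → (S → ℝ) := fun e =>
    bezVal S (∏ j, X j ^ (e j : ℕ))
  let W : Submodule ℝ (S → ℝ) := Submodule.span ℝ (Set.range b)
  -- a polynomial of small degree is in `W` if all monomials of small degree are
  have hpoly : ∀ n : ℕ, (∀ m : Fin N →₀ ℕ, m.degree < n → bezVal S (monomial m 1) ∈ W) →
      ∀ p : MvPolynomial (Fin N) ℝ, p.totalDegree < n → bezVal S p ∈ W := by
    intro n hn p hp
    rw [p.as_sum, map_sum]
    refine Submodule.sum_mem _ (fun m hm => ?_)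
    have h1 : monomial m (coeff m p) = (coeff m p) • (monomial m (1 : ℝ)) := by
      rw [smul_monomial, smul_eq_mul, mul_one]
    rw [h1, map_smul]
    refine Submodule.smul_mem _ _ (hn m ?_)
    refine lt_of_le_of_lt ?_ hp
    have := le_totalDegree hm
    rw [Finsupp.degree_eq_sum]
    rw [Finsupp.sum_fintype _ _ (fun _ => rfl)] at this
    exact this
  have hmon : ∀ n : ℕ, ∀ m : Fin N →₀ ℕ, m.degree < n → bezVal S (monomial m 1) ∈ W := by
    intro n
    induction n with
    | zero => intro m hm; exact absurd hm (Nat.not_lt_zero _)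
    | succ n ih =>
      intro m hm
      by_cases hbig : ∃ j, d + 1 ≤ m j
      · obtain ⟨j, hj⟩ := hbig
        -- `x^m = x^m' x_j^(d+1)`
        set m' : Fin N →₀ ℕ := m - Finsupp.single j (d + 1) with hm'
        have hle : Finsupp.single j (d + 1) ≤ m := by
          rw [Finsupp.single_le_iff]
          exact hj
        have hadd : m' + Finsupp.single j (d + 1) = m := tsub_add_cancel_of_le hle
        have hdeg : m'.degree + (d + 1) = m.degree := by
          rw [← hadd, map_add, Finsupp.degree_single]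
        have h1 : bezVal S (monomial m 1) = (-c⁻¹) • bezVal S (monomial m' 1 * g j) := by
          funext s
          rw [Pi.smul_apply, bezVal_apply, bezVal_apply, map_mul, smul_eq_mul]
          have h2 := hS s s.2 j
          have h3 : eval (s : Fin N → ℝ) (monomial m (1 : ℝ)) =
              eval (s : Fin N → ℝ) (monomial m' (1 : ℝ)) * (s : Fin N → ℝ) j ^ (d + 1) := by
            rw [← hadd]
            have h4 : monomial (m' + Finsupp.single j (d + 1)) (1 : ℝ) =
                monomial m' (1 : ℝ) * X j ^ (d + 1) := by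
              rw [X_pow_eq_monomial, monomial_mul, one_mul]
            rw [h4, map_mul, map_pow, eval_X]
          rw [h3]
          have h5 : (s : Fin N → ℝ) j ^ (d + 1) = -c⁻¹ * eval (s : Fin N → ℝ) (g j) := by
            field_simp
            linarith
          rw [h5]
          ring
        rw [h1]
        refine Submodule.smul_mem _ _ (hpoly n ih _ ?_)
        have h6 : (monomial m' (1 : ℝ)).totalDegree = m'.degree := by
          rw [totalDegree_monomial _ one_ne_zero, Finsupp.degree_eq_sum,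
            Finsupp.sum_fintype _ _ (fun _ => rfl)]
        have h7 := totalDegree_mul (monomial m' (1 : ℝ)) (g j)
        have h8 := hg j
        omega
      · push Not at hbig
        refine Submodule.subset_span ⟨fun j => ⟨m j, by have := hbig j; omega⟩, ?_⟩
        funext s
        simp only [b]
        rw [bezVal_apply, bezVal_apply, eval_monomial, map_prod]
        rw [Finsupp.prod_fintype _ _ (fun _ => pow_zero _), one_mul]
        refine Finset.prod_congr rfl (fun j _ => ?_)
        rw [map_pow, eval_X]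
  have htop : W = ⊤ := by
    rw [eq_top_iff]
    intro y _
    obtain ⟨p, rfl⟩ := bez_lagrange S y
    exact hpoly (p.totalDegree + 1) (hmon _) p (Nat.lt_succ_self _)
  have hcard : Module.finrank ℝ W ≤ (d + 1) ^ N := by
    have := finrank_range_le_card (R := ℝ) b
    simpa [Set.finrank, W] using this
  have h2 : Module.finrank ℝ W = S.card := by
    rw [htop, finrank_top]
    simp
  rw [← h2]
  exact hcard

/-- perturbation of a nondegenerate zero -/
theorem bez_perturb {N d : ℕ} (g : Fin N → MvPolynomial (Fin N) ℝ) {p : Fin N → ℝ}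
    (h0 : ∀ j, eval p (g j) = 0)
    (hdet : (Matrix.of fun j i => eval p (pderiv i (g j))).det ≠ 0)
    {U : Set (Fin N → ℝ)} (hU : U ∈ 𝓝 p) :
    ∀ᶠ c : ℝ in 𝓝 0, ∃ x ∈ U, ∀ j, eval x (g j) + c * x j ^ (d + 1) = 0 := by
  set M : Matrix (Fin N) (Fin N) ℝ := Matrix.of fun j i => eval p (pderiv i (g j)) with hM
  let F : ℝ × (Fin N → ℝ) → ℝ × (Fin N → ℝ) := fun z =>
    (z.1, fun j => eval z.2 (g j) + z.1 * z.2 j ^ (d + 1))
  let L1 : Fin N → (ℝ × (Fin N → ℝ)) →L[ℝ] ℝ := fun j =>
    (∑ i, eval p (pderiv i (g j)) • (ContinuousLinearMap.proj i : (Fin N → ℝ) →L[ℝ] ℝ)).comp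
      (ContinuousLinearMap.snd ℝ ℝ (Fin N → ℝ)) +
      (p j ^ (d + 1)) • ContinuousLinearMap.fst ℝ ℝ (Fin N → ℝ)
  let L : (ℝ × (Fin N → ℝ)) →L[ℝ] ℝ × (Fin N → ℝ) :=
    (ContinuousLinearMap.fst ℝ ℝ (Fin N → ℝ)).prod (ContinuousLinearMap.pi L1)
  have hF : HasStrictFDerivAt F L (0, p) := by
    refine hasStrictFDerivAt_fst.prodMk (hasStrictFDerivAt_pi.2 (fun j => ?_))
    have a1 : HasStrictFDerivAt (fun z : ℝ × (Fin N → ℝ) => eval z.2 (g j))
        ((∑ i, eval p (pderiv i (g j)) • (ContinuousLinearMap.proj i : (Fin N → ℝ) →L[ℝ] ℝ)).comp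
          (ContinuousLinearMap.snd ℝ ℝ (Fin N → ℝ))) (0, p) :=
      HasStrictFDerivAt.comp (g := fun y : Fin N → ℝ => eval y (g j))
        (f := fun z : ℝ × (Fin N → ℝ) => z.2) ((0 : ℝ), p) (bez_deriv (g j) p)
        hasStrictFDerivAt_snd
    have a2 : HasStrictFDerivAt (fun z : ℝ × (Fin N → ℝ) => z.2 j)
        ((ContinuousLinearMap.proj j : (Fin N → ℝ) →L[ℝ] ℝ).comp
          (ContinuousLinearMap.snd ℝ ℝ (Fin N → ℝ))) (0, p) :=
      HasStrictFDerivAt.comp (g := fun y : Fin N → ℝ => y j)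
        (f := fun z : ℝ × (Fin N → ℝ) => z.2) ((0 : ℝ), p) (hasStrictFDerivAt_apply (𝕜 := ℝ) j p)
        hasStrictFDerivAt_snd
    have a3 := (hasStrictFDerivAt_fst (𝕜 := ℝ) (p := ((0 : ℝ), p))).mul (a2.pow (d + 1))
    refine (a1.add a3).congr_fderiv ?_
    simp only [L1]
    congr 1
    ext v <;> simp
  have hrange : (L : (ℝ × (Fin N → ℝ)) →L[ℝ] ℝ × (Fin N → ℝ)).range = ⊤ := by
    rw [LinearMap.range_eq_top]
    rintro ⟨c', y⟩
    let w : Fin N → ℝ := fun j => y j - p j ^ (d + 1) * c'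
    refine ⟨(c', M⁻¹.mulVec w), ?_⟩
    have h1 : M.mulVec (M⁻¹.mulVec w) = w := by
      rw [Matrix.mulVec_mulVec, Matrix.mul_nonsing_inv _ (isUnit_iff_ne_zero.2 hdet),
        Matrix.one_mulVec]
    refine Prod.ext rfl ?_
    funext j
    have h2 := congrFun h1 j
    rw [Matrix.mulVec, dotProduct] at h2
    change (L1 j) (c', M⁻¹.mulVec w) = y j
    simp only [L1, w] at h2 ⊢
    simp only [add_apply, ContinuousLinearMap.comp_apply, smul_apply, smul_eq_mul,
      sum_apply, ContinuousLinearMap.proj_apply, ContinuousLinearMap.coe_snd',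
      ContinuousLinearMap.coe_fst']
    have h3 : ∑ i, eval p (pderiv i (g j)) * (M⁻¹.mulVec w) i = w j := h2
    rw [h3]
    simp [w]
  have hmap := hF.map_nhds_eq_of_surj hrange
  have hF0 : F (0, p) = (0, 0) := by
    refine Prod.ext rfl ?_
    funext j
    change eval p (g j) + 0 * p j ^ (d + 1) = 0
    rw [h0 j]
    ring
  rw [hF0] at hmap
  have hU' : (Set.univ ×ˢ U : Set (ℝ × (Fin N → ℝ))) ∈ 𝓝 ((0 : ℝ), p) := by
    rw [nhds_prod_eq]
    exact Filter.prod_mem_prod Filter.univ_mem hU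
  have himg : F '' (Set.univ ×ˢ U) ∈ 𝓝 ((0 : ℝ), (0 : Fin N → ℝ)) := by
    rw [← hmap]
    exact Filter.image_mem_map hU'
  have hcont : Tendsto (fun c : ℝ => (c, (0 : Fin N → ℝ))) (𝓝 0) (𝓝 (0, 0)) := by
    have : Continuous (fun c : ℝ => (c, (0 : Fin N → ℝ))) := by fun_prop
    exact this.tendsto 0
  filter_upwards [hcont himg] with c hc
  obtain ⟨⟨c', x⟩, ⟨_, hx⟩, hEq⟩ := hc
  have hc' : c' = c := congrArg Prod.fst hEq
  have hx' := congrArg Prod.snd hEq
  refine ⟨x, hx, fun j => ?_⟩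
  have := congrFun hx' j
  rw [← hc']
  exact this

theorem st_BEZ : ST_BEZ := by
  classical
  intro N d g hg S hS
  -- disjoint neighbourhoods
  obtain ⟨U, hU, hdisj⟩ := S.finite_toSet.t2_separation
  have hex : ∀ᶠ c : ℝ in 𝓝 0, ∀ p ∈ S, ∃ x ∈ U p, ∀ j, eval x (g j) + c * x j ^ (d + 1) = 0 := by
    rw [Filter.eventually_all_finset]
    intro p hp
    exact bez_perturb g (hS p hp).1 (hS p hp).2 ((hU p).2.mem_nhds (hU p).1)
  have hne : ∃ c : ℝ, c ≠ 0 ∧ ∀ p ∈ S, ∃ x ∈ U p, ∀ j, eval x (g j) + c * x j ^ (d + 1) = 0 := by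
    have h1 : ∀ᶠ c : ℝ in 𝓝[≠] 0, ∀ p ∈ S, ∃ x ∈ U p,
        ∀ j, eval x (g j) + c * x j ^ (d + 1) = 0 := hex.filter_mono nhdsWithin_le_nhds
    obtain ⟨c, hc1, hc2⟩ := (h1.and self_mem_nhdsWithin).exists
    exact ⟨c, hc2, hc1⟩
  obtain ⟨c, hc, hall⟩ := hne
  choose! x hxU hx using hall
  have hinj : Set.InjOn x S := by
    intro p hp q hq hpq
    by_contra hne
    have h1 := hdisj hp hq hne
    exact Set.disjoint_left.1 h1 (hxU p hp) (hpq ▸ hxU q hq)
  rw [← Finset.card_image_of_injOn hinj]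
  refine bez_count g hg hc _ ?_
  intro p hp
  obtain ⟨q, hq, rfl⟩ := Finset.mem_image.1 hp
  exact hx q hq

end Pool.Agent.Helper43.RS
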