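import Pool.Agent.Helper43.RS.Spec

/-!
# BS: finiteness of the first real Galois cohomology set of a linear algebraic group
-/

namespace Pool.Agent.Helper43.RS

open scoped ComplexConjugate
open MvPolynomial Filter Topology

/-! ## Real and imaginary parts of polynomial functions -/

/-- polynomial functions with complex values -/
def BsP {N : ℕ} (F : (Fin N → ℝ) → ℂ) : Prop :=
  ∃ r s : MvPolynomial (Fin N) ℝ, ∀ x, F x = (eval x r : ℝ) + Complex.I * (eval x s : ℝ)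

theorem BsP.const {N : ℕ} (c : ℂ) : BsP (fun _ : Fin N → ℝ => c) := by
  refine ⟨C c.re, C c.im, fun x => ?_⟩
  rw [eval_C, eval_C, mul_comm]
  exact (Complex.re_add_im c).symm

theorem BsP.add {N : ℕ} {F F' : (Fin N → ℝ) → ℂ} (h : BsP F) (h' : BsP F') :
    BsP (fun x => F x + F' x) := by
  obtain ⟨r, s, hrs⟩ := h
  obtain ⟨r', s', hrs'⟩ := h'
  refine ⟨r + r', s + s', fun x => ?_⟩
  change F x + F' x = _
  rw [hrs, hrs', map_add, map_add]
  push_cast
  ring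

theorem BsP.mul {N : ℕ} {F F' : (Fin N → ℝ) → ℂ} (h : BsP F) (h' : BsP F') :
    BsP (fun x => F x * F' x) := by
  obtain ⟨r, s, hrs⟩ := h
  obtain ⟨r', s', hrs'⟩ := h'
  refine ⟨r * r' - s * s', r * s' + s * r', fun x => ?_⟩
  change F x * F' x = _
  rw [hrs, hrs', map_sub, map_add, map_mul, map_mul, map_mul, map_mul]
  push_cast
  linear_combination ((eval x s : ℝ) : ℂ) * ((eval x s' : ℝ) : ℂ) * Complex.I_sq

theorem BsP.coord {N : ℕ} (k : Fin N) : BsP (fun x : Fin N → ℝ => (x k : ℂ)) := by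
  refine ⟨X k, 0, fun x => ?_⟩
  rw [eval_X, map_zero]
  simp

theorem BsP.sum {N : ℕ} {ι : Type} (s : Finset ι) {F : ι → (Fin N → ℝ) → ℂ}
    (h : ∀ i ∈ s, BsP (F i)) : BsP (fun x => ∑ i ∈ s, F i x) := by
  classical
  induction s using Finset.induction_on with
  | empty => simpa using BsP.const (N := N) 0
  | insert a s ha ih =>
    simp only [Finset.sum_insert ha]
    exact (h a (Finset.mem_insert_self _ _)).add
      (ih (fun i hi => h i (Finset.mem_insert_of_mem hi)))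

theorem BsP.eval {N : ℕ} {τ : Type} (p : MvPolynomial τ ℂ) (v : τ → (Fin N → ℝ) → ℂ)
    (hv : ∀ t, BsP (v t)) : BsP (fun x => MvPolynomial.eval (fun t => v t x) p) := by
  induction p using MvPolynomial.induction_on with
  | C a => simpa using BsP.const (N := N) a
  | add p q hp hq => simpa using hp.add hq
  | mul_X p i hp => simpa using hp.mul (hv i)

theorem BsP.sq {N : ℕ} {F : (Fin N → ℝ) → ℂ} (h : BsP F) :
    ∃ q : MvPolynomial (Fin N) ℝ, ∀ x, MvPolynomial.eval x q = Complex.normSq (F x) := by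
  obtain ⟨r, s, hrs⟩ := h
  refine ⟨r * r + s * s, fun x => ?_⟩
  rw [hrs, mul_comm Complex.I, Complex.normSq_add_mul_I]
  simp only [map_add, map_mul]
  ring

/-! ## Coordinates on matrices -/

/-- number of coordinates -/
abbrev bsN (n : ℕ) : ℕ := Fintype.card ((Fin n × Fin n) × Bool)

/-- numbering of the coordinates -/
noncomputable def bsE (n : ℕ) : (Fin n × Fin n) × Bool ≃ Fin (bsN n) := Fintype.equivFin _

/-- the matrix with given real coordinates -/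
noncomputable def bsM {n : ℕ} (x : Fin (bsN n) → ℝ) : Matrix (Fin n) (Fin n) ℂ :=
  Matrix.of fun i j => (x (bsE n ((i, j), false)) : ℂ) + Complex.I * (x (bsE n ((i, j), true)) : ℂ)

/-- the real coordinates of a matrix -/
noncomputable def bsX {n : ℕ} (m : Matrix (Fin n) (Fin n) ℂ) : Fin (bsN n) → ℝ := fun k =>
  let a := (bsE n).symm k
  if a.2 then (m a.1.1 a.1.2).im else (m a.1.1 a.1.2).re

theorem bsM_bsX {n : ℕ} (m : Matrix (Fin n) (Fin n) ℂ) : bsM (bsX m) = m := by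
  ext i j
  simp only [bsM, bsX, Matrix.of_apply, Equiv.symm_apply_apply, if_true, Bool.false_eq_true,
    if_false]
  rw [mul_comm]
  exact Complex.re_add_im _

theorem bsX_bsM {n : ℕ} (x : Fin (bsN n) → ℝ) : bsX (bsM x) = x := by
  funext k
  obtain ⟨⟨⟨i, j⟩, b⟩, rfl⟩ := (bsE n).surjective k
  simp only [bsM, bsX, Matrix.of_apply, Equiv.symm_apply_apply]
  cases b <;> simp

theorem bsM_cont {n : ℕ} : Continuous (bsM : (Fin (bsN n) → ℝ) → Matrix (Fin n) (Fin n) ℂ) := by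
  refine continuous_matrix (fun i j => ?_)
  simp only [bsM, Matrix.of_apply]
  fun_prop

theorem bsM_P {n : ℕ} (i j : Fin n) : BsP (fun x : Fin (bsN n) → ℝ => bsM x i j) := by
  simp only [bsM, Matrix.of_apply]
  exact (BsP.coord _).add ((BsP.const _).mul (BsP.coord _))

theorem bsM_conj_P {n : ℕ} (i j : Fin n) :
    BsP (fun x : Fin (bsN n) → ℝ => conj (bsM x i j)) := by
  have : (fun x : Fin (bsN n) → ℝ => conj (bsM x i j)) = fun x =>
      (x (bsE n ((i, j), false)) : ℂ) + (-Complex.I) * (x (bsE n ((i, j), true)) : ℂ) := by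
    funext x
    simp [bsM, Matrix.of_apply]
  rw [this]
  exact (BsP.coord _).add ((BsP.const _).mul (BsP.coord _))

theorem cj_apply {n : ℕ} (g : GL (Fin n) ℂ) (i j : Fin n) :
    ((cj g : GL (Fin n) ℂ) : Matrix (Fin n) (Fin n) ℂ) i j =
      conj ((g : Matrix (Fin n) (Fin n) ℂ) i j) := rfl

theorem cj_cj {n : ℕ} (g : GL (Fin n) ℂ) : cj (cj g) = g := by
  ext i j
  rw [cj_apply, cj_apply, Complex.conj_conj]

/-- twisted cocycles -/
def bsC {n : ℕ} (A : Subgroup (GL (Fin n) ℂ)) : Set (GL (Fin n) ℂ) :=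
  {a | a ∈ A ∧ a * cj a = 1}

/-- the set of cocycles is a real algebraic set -/
theorem bs_alg {n : ℕ} (A : Subgroup (GL (Fin n) ℂ)) (hA : ZClosed (A : Set (GL (Fin n) ℂ))) :
    ∃ f : MvPolynomial (Fin (bsN n)) ℝ, (∀ x, 0 ≤ eval x f) ∧
      ∀ x, eval x f = 0 ↔ ∃ a ∈ bsC A, bsM x = (a : Matrix (Fin n) (Fin n) ℂ) := by
  classical
  obtain ⟨I, hI⟩ := hA
  obtain ⟨Gs, hG⟩ := (IsNoetherian.noetherian (Ideal.span I) : (Ideal.span I).FG)
  have hzero : ∀ g : GL (Fin n) ℂ, g ∈ A ↔ ∀ p ∈ Gs, eval (entries g) p = 0 := by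
    intro g
    have h1 : g ∈ A ↔ ∀ p ∈ I, eval (entries g) p = 0 := by
      change g ∈ (A : Set (GL (Fin n) ℂ)) ↔ _
      rw [hI]
      rfl
    rw [h1]
    constructor
    · intro h p hp
      have h2 : Ideal.span I ≤ RingHom.ker (eval (entries g)) := Ideal.span_le.2 h
      have h3 : p ∈ Ideal.span I := by
        rw [← hG]
        exact Submodule.subset_span hp
      exact h2 h3
    · intro h p hp
      have h2 : Ideal.span (Gs : Set _) ≤ RingHom.ker (eval (entries g)) := Ideal.span_le.2 h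
      have h3 : p ∈ Ideal.span (Gs : Set _) := by
        have : Ideal.span (Gs : Set (MvPolynomial ((Fin n × Fin n) ⊕ (Fin n × Fin n)) ℂ)) =
          Ideal.span I := hG
        rw [this]
        exact Ideal.subset_span hp
      exact h2 h3
  -- the complex functions
  let ev : (Fin (bsN n) → ℝ) → ((Fin n × Fin n) ⊕ (Fin n × Fin n)) → ℂ := fun x =>
    Sum.elim (fun ij => bsM x ij.1 ij.2) (fun ij => conj (bsM x ij.1 ij.2))
  have hev : ∀ t, BsP (fun x => ev x t) := by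
    rintro (t | t)
    · exact bsM_P _ _
    · exact bsM_conj_P _ _
  have h1 : ∀ p : MvPolynomial ((Fin n × Fin n) ⊕ (Fin n × Fin n)) ℂ,
      ∃ q : MvPolynomial (Fin (bsN n)) ℝ, ∀ x, eval x q = Complex.normSq (eval (ev x) p) :=
    fun p => (BsP.eval p (fun t x => ev x t) hev).sq
  have h2 : ∀ ij : Fin n × Fin n, ∃ q : MvPolynomial (Fin (bsN n)) ℝ, ∀ x,
      eval x q = Complex.normSq ((∑ k, bsM x ij.1 k * conj (bsM x k ij.2)) +
        -(1 : Matrix (Fin n) (Fin n) ℂ) ij.1 ij.2) := fun ij =>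
    ((BsP.sum Finset.univ (fun k _ => (bsM_P _ _).mul (bsM_conj_P _ _))).add (BsP.const _)).sq
  choose q1 hq1 using h1
  choose q2 hq2 using h2
  refine ⟨∑ p ∈ Gs, q1 p + ∑ ij, q2 ij, ?_, ?_⟩
  · intro x
    rw [map_add, map_sum, map_sum]
    refine add_nonneg (Finset.sum_nonneg (fun p _ => ?_)) (Finset.sum_nonneg (fun ij _ => ?_))
    · rw [hq1]
      exact Complex.normSq_nonneg _
    · rw [hq2]
      exact Complex.normSq_nonneg _
  · intro x
    rw [map_add, map_sum, map_sum]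
    have e1 : 0 ≤ ∑ p ∈ Gs, eval x (q1 p) := Finset.sum_nonneg (fun p _ => by
      rw [hq1]; exact Complex.normSq_nonneg _)
    have e2 : 0 ≤ ∑ ij, eval x (q2 ij) := Finset.sum_nonneg (fun p _ => by
      rw [hq2]; exact Complex.normSq_nonneg _)
    rw [add_eq_zero_iff_of_nonneg e1 e2,
      Finset.sum_eq_zero_iff_of_nonneg (fun p _ => by rw [hq1]; exact Complex.normSq_nonneg _),
      Finset.sum_eq_zero_iff_of_nonneg (fun p _ => by rw [hq2]; exact Complex.normSq_nonneg _)]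
    simp only [hq1, hq2, Complex.normSq_eq_zero, Finset.mem_univ, forall_true_left]
    constructor
    · rintro ⟨hp, hq⟩
      have hmul : bsM x * (bsM x).map (starRingEnd ℂ) = 1 := by
        ext i j
        have := hq (i, j)
        rw [Matrix.mul_apply]
        simp only [Matrix.map_apply]
        have h3 := add_neg_eq_zero.1 this
        exact h3
      have hmul' : (bsM x).map (starRingEnd ℂ) * bsM x = 1 := mul_eq_one_comm.1 hmul
      let a : GL (Fin n) ℂ := ⟨bsM x, (bsM x).map (starRingEnd ℂ), hmul, hmul'⟩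
      refine ⟨a, ⟨?_, ?_⟩, rfl⟩
      · rw [hzero]
        intro p hp'
        have h4 := hp p hp'
        exact h4
      · apply Units.ext
        exact hmul
    · rintro ⟨a, ⟨haA, ha1⟩, hax⟩
      have hinv : cj a = a⁻¹ := eq_inv_of_mul_eq_one_right ha1
      have hev' : ev x = entries a := by
        funext t
        rcases t with t | t
        · change bsM x t.1 t.2 = (a : Matrix (Fin n) (Fin n) ℂ) t.1 t.2
          rw [hax]
        · change conj (bsM x t.1 t.2) =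
            ((a⁻¹ : GL (Fin n) ℂ) : Matrix (Fin n) (Fin n) ℂ) t.1 t.2
          rw [hax, ← hinv, cj_apply]
      refine ⟨fun p hp => ?_, fun ij => ?_⟩
      · rw [hev']
        exact (hzero a).1 haA p hp
      · have h5 := congrArg (fun g : GL (Fin n) ℂ => (g : Matrix (Fin n) (Fin n) ℂ) ij.1 ij.2) ha1
        simp only [Units.val_mul, Matrix.mul_apply, cj_apply, Units.val_one] at h5
        rw [hax, h5]
        ring

/-! ## Nearness -/

theorem bs_near {n : ℕ} {s : Set (Matrix (Fin n) (Fin n) ℂ)}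
    (hs : s ∈ 𝓝 (1 : Matrix (Fin n) (Fin n) ℂ)) :
    ∃ ε > 0, ∀ x : GL (Fin n) ℂ, Near ε x → (x : Matrix (Fin n) (Fin n) ℂ) ∈ s := by
  have hs' : (s : Set (Fin n → Fin n → ℂ)) ∈ 𝓝 (1 : Matrix (Fin n) (Fin n) ℂ) := hs
  obtain ⟨ε, hε, h⟩ := (Metric.mem_nhds_iff (α := Fin n → Fin n → ℂ)
    (x := fun i j => (1 : Matrix (Fin n) (Fin n) ℂ) i j) (s := s)).1 hs'
  refine ⟨ε, hε, fun x hx => h ?_⟩
  have h1 : dist (fun i j => (x : Matrix (Fin n) (Fin n) ℂ) i j)
      (fun i j => (1 : Matrix (Fin n) (Fin n) ℂ) i j) < ε := by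
    rw [dist_pi_lt_iff hε]
    intro i
    rw [dist_pi_lt_iff hε]
    intro j
    rw [dist_eq_norm]
    exact hx i j
  exact h1

theorem bs_near_mem {n : ℕ} {ε : ℝ} (hε : 0 < ε) :
    {m : Matrix (Fin n) (Fin n) ℂ | ∀ i j, ‖m i j - (1 : Matrix (Fin n) (Fin n) ℂ) i j‖ < ε} ∈
      𝓝 (1 : Matrix (Fin n) (Fin n) ℂ) := by
  refine IsOpen.mem_nhds ?_ (fun i j => by rw [sub_self, norm_zero]; exact hε)
  simp only [Set.ofPred_forall]
  refine isOpen_iInter_of_finite (fun i => isOpen_iInter_of_finite (fun j => ?_))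
  refine isOpen_lt ?_ continuous_const
  have : Continuous (fun m : Matrix (Fin n) (Fin n) ℂ => m i j) := continuous_id.matrix_elem i j
  fun_prop

/-- conjugated square roots -/
theorem bs_cont1 {n : ℕ} {ε : ℝ} (hε : 0 < ε) (m : GL (Fin n) ℂ) :
    ∃ δ > 0, ∀ y : GL (Fin n) ℂ, Near δ y → Near ε (m * cj y * m⁻¹) := by
  have hcont : Continuous (fun y : Matrix (Fin n) (Fin n) ℂ =>
      (m : Matrix (Fin n) (Fin n) ℂ) * y.map (starRingEnd ℂ) *
        ((m⁻¹ : GL (Fin n) ℂ) : Matrix (Fin n) (Fin n) ℂ)) := by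
    have h1 : Continuous (fun y : Matrix (Fin n) (Fin n) ℂ => y.map (starRingEnd ℂ)) :=
      continuous_id.matrix_map Complex.continuous_conj
    exact (continuous_const.matrix_mul h1).matrix_mul continuous_const
  have h1 : (m : Matrix (Fin n) (Fin n) ℂ) * (1 : Matrix (Fin n) (Fin n) ℂ).map (starRingEnd ℂ) *
      ((m⁻¹ : GL (Fin n) ℂ) : Matrix (Fin n) (Fin n) ℂ) = 1 := by
    rw [Matrix.map_one _ (map_zero _) (map_one _), mul_one, ← Units.val_mul, mul_inv_cancel,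
      Units.val_one]
  have h2 := hcont.tendsto 1
  rw [h1] at h2
  obtain ⟨δ, hδ, h⟩ := bs_near (h2 (bs_near_mem hε))
  exact ⟨δ, hδ, fun y hy i j => h y hy i j⟩

theorem bs_cont2 {n : ℕ} {ε : ℝ} (hε : 0 < ε) :
    ∃ δ > 0, ∀ y : GL (Fin n) ℂ, Near δ y → Near ε y⁻¹ := by
  have h1 : ContinuousAt (fun y : Matrix (Fin n) (Fin n) ℂ => y⁻¹) 1 := by
    have h2 : ∀ᶠ y : Matrix (Fin n) (Fin n) ℂ in 𝓝 1, y.det⁻¹ • y.adjugate = y⁻¹ := by
      filter_upwards with y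
      rw [Matrix.inv_def, Ring.inverse_eq_inv]
    refine ContinuousAt.congr ?_ h2
    have h3 : Continuous (fun y : Matrix (Fin n) (Fin n) ℂ => y.det) := continuous_id.matrix_det
    have h4 : Continuous (fun y : Matrix (Fin n) (Fin n) ℂ => y.adjugate) :=
      continuous_id.matrix_adjugate
    refine ContinuousAt.smul (h3.continuousAt.inv₀ ?_) h4.continuousAt
    rw [Matrix.det_one]
    exact one_ne_zero
  have h2 : Tendsto (fun y : Matrix (Fin n) (Fin n) ℂ => y⁻¹) (𝓝 1) (𝓝 1) := by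
    have := h1.tendsto
    rwa [inv_one] at this
  obtain ⟨δ, hδ, h⟩ := bs_near (h2 (bs_near_mem hε))
  refine ⟨δ, hδ, fun y hy i j => ?_⟩
  have h3 := h y hy i j
  rw [Matrix.coe_units_inv]
  exact h3

theorem bs_cont3 {n : ℕ} {ε : ℝ} (hε : 0 < ε) (m : GL (Fin n) ℂ) :
    {m' : Matrix (Fin n) (Fin n) ℂ | ∀ i j,
      ‖(m' * ((m⁻¹ : GL (Fin n) ℂ) : Matrix (Fin n) (Fin n) ℂ)) i j -
        (1 : Matrix (Fin n) (Fin n) ℂ) i j‖ < ε} ∈ 𝓝 (m : Matrix (Fin n) (Fin n) ℂ) := by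
  have hcont : Continuous (fun m' : Matrix (Fin n) (Fin n) ℂ =>
      m' * ((m⁻¹ : GL (Fin n) ℂ) : Matrix (Fin n) (Fin n) ℂ)) :=
    continuous_id.matrix_mul continuous_const
  have h1 := hcont.tendsto (m : Matrix (Fin n) (Fin n) ℂ)
  have h2 : (m : Matrix (Fin n) (Fin n) ℂ) * ((m⁻¹ : GL (Fin n) ℂ) : Matrix (Fin n) (Fin n) ℂ) =
      1 := by
    rw [← Units.val_mul, mul_inv_cancel, Units.val_one]
  rw [h2] at h1
  exact h1 (bs_near_mem hε)

/-- twisted conjugacy -/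
def bsR {n : ℕ} (A : Subgroup (GL (Fin n) ℂ)) (a b : GL (Fin n) ℂ) : Prop :=
  ∃ x ∈ A, a = x * b * (cj x)⁻¹

theorem bsR.refl {n : ℕ} (A : Subgroup (GL (Fin n) ℂ)) (a : GL (Fin n) ℂ) : bsR A a a :=
  ⟨1, A.one_mem, by simp⟩

theorem bsR.symm {n : ℕ} {A : Subgroup (GL (Fin n) ℂ)} {a b : GL (Fin n) ℂ} (h : bsR A a b) :
    bsR A b a := by
  obtain ⟨x, hx, rfl⟩ := h
  refine ⟨x⁻¹, A.inv_mem hx, ?_⟩
  rw [map_inv, inv_inv]
  group

theorem bsR.trans {n : ℕ} {A : Subgroup (GL (Fin n) ℂ)} {a b c : GL (Fin n) ℂ} (h : bsR A a b)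
    (h' : bsR A b c) : bsR A a c := by
  obtain ⟨x, hx, rfl⟩ := h
  obtain ⟨y, hy, rfl⟩ := h'
  refine ⟨x * y, A.mul_mem hx hy, ?_⟩
  rw [map_mul]
  group

/-- orbits are open -/
theorem bs_local (hSQA : ST_SQA) (hSQB : ST_SQB) {n : ℕ} (A : Subgroup (GL (Fin n) ℂ))
    (hA : ZClosed (A : Set (GL (Fin n) ℂ))) {m : GL (Fin n) ℂ}
    (hm : m ∈ bsC A) : ∃ ε > 0, ∀ m' ∈ bsC A, Near ε (m' * m⁻¹) → bsR A m' m := by
  obtain ⟨ε1, hε1, hsqa⟩ := hSQA n A hA
  obtain ⟨ε2, hε2, huni⟩ := hSQB.2 n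
  obtain ⟨δ1, hδ1, hc1⟩ := bs_cont1 hε2 m
  obtain ⟨δ2, hδ2, hc2⟩ := bs_cont2 (n := n) hε2
  obtain ⟨δ, hδ, hex⟩ := hSQB.1 n (min ε1 (min δ1 δ2)) (lt_min hε1 (lt_min hδ1 hδ2))
  refine ⟨δ, hδ, fun m' hm' hnear => ?_⟩
  obtain ⟨y, hy, hyy⟩ := hex _ hnear
  have hy1 : Near ε1 y := fun i j => (hy i j).trans_le (min_le_left _ _)
  have hy2 : Near δ1 y := fun i j =>
    (hy i j).trans_le ((min_le_right _ _).trans (min_le_left _ _))
  have hy3 : Near δ2 y := fun i j =>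
    (hy i j).trans_le ((min_le_right _ _).trans (min_le_right _ _))
  have hyA : y ∈ A := hsqa y hy1 (by rw [hyy]; exact A.mul_mem hm'.1 (A.inv_mem hm.1))
  have hcm : cj m = m⁻¹ := eq_inv_of_mul_eq_one_right hm.2
  have hcm' : cj m' = m'⁻¹ := eq_inv_of_mul_eq_one_right hm'.2
  have hsq : m * cj y * m⁻¹ * (m * cj y * m⁻¹) = y⁻¹ * y⁻¹ := by
    have h1 : cj y * cj y = m'⁻¹ * m := by
      rw [← map_mul, hyy, map_mul, map_inv, hcm, hcm', inv_inv]
    have h2 : m * cj y * m⁻¹ * (m * cj y * m⁻¹) = m * (cj y * cj y) * m⁻¹ := by group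
    rw [h2, h1, ← mul_inv_rev, hyy]
    group
  have heq := huni _ _ (hc1 y hy2) (hc2 y hy3) hsq
  refine ⟨y, hyA, ?_⟩
  have h3 : cj y = m⁻¹ * y⁻¹ * m := by
    calc cj y = m⁻¹ * (m * cj y * m⁻¹) * m := by group
      _ = _ := by rw [heq]
  have h4 : m' = y * y * m := by
    rw [hyy]
    group
  rw [h3, h4]
  group

theorem st_BS (hFC : ST_FC) (hSQA : ST_SQA) (hSQB : ST_SQB) : ST_BS := by
  classical
  intro n A hA hconj
  obtain ⟨f, hf0, hf⟩ := bs_alg A hA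
  obtain ⟨K, hK⟩ := hFC (bsN n) f hf0
  -- local constancy
  have hloc : ∀ x : Fin (bsN n) → ℝ, eval x f = 0 → ∀ a : GL (Fin n) ℂ, a ∈ bsC A →
      bsM x = (a : Matrix (Fin n) (Fin n) ℂ) → ∃ U, IsOpen U ∧ x ∈ U ∧ ∀ x' ∈ U,
        ∀ a' : GL (Fin n) ℂ, a' ∈ bsC A → bsM x' = (a' : Matrix (Fin n) (Fin n) ℂ) →
          bsR A a' a := by
    intro x _ a ha hxa
    obtain ⟨ε, hε, h⟩ := bs_local hSQA hSQB A hA ha
    have h1 := bs_cont3 hε a
    rw [← hxa] at h1
    obtain ⟨U, hU, hUo, hxU⟩ := mem_nhds_iff.1 (bsM_cont.continuousAt.preimage_mem_nhds h1)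
    refine ⟨U, hUo, hxU, fun x' hx' a' ha' hxa' => h a' ha' ?_⟩
    intro i j
    have h2 := hU hx' i j
    rw [hxa'] at h2
    exact h2
  -- classes
  let V : GL (Fin n) ℂ → Set (Fin (bsN n) → ℝ) := fun b =>
    {x | ∃ a ∈ bsC A, bsM x = (a : Matrix (Fin n) (Fin n) ℂ) ∧ bsR A a b}
  have huniq : ∀ {x : Fin (bsN n) → ℝ} {a a' : GL (Fin n) ℂ},
      bsM x = (a : Matrix (Fin n) (Fin n) ℂ) → bsM x = (a' : Matrix (Fin n) (Fin n) ℂ) →
      a = a' := fun h h' => Units.ext (h.symm.trans h')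
  have hVopen : ∀ b, ∃ U, IsOpen U ∧ V b = U ∩ {x | eval x f = 0} := by
    intro b
    refine ⟨⋃₀ {U | IsOpen U ∧ U ∩ {x | eval x f = 0} ⊆ V b},
      isOpen_sUnion (fun U hU => hU.1), ?_⟩
    ext x
    constructor
    · rintro ⟨a, ha, hxa, hab⟩
      have hx0 : eval x f = 0 := (hf x).2 ⟨a, ha, hxa⟩
      refine ⟨?_, hx0⟩
      obtain ⟨U, hUo, hxU, hU⟩ := hloc x hx0 a ha hxa
      refine Set.mem_sUnion.2 ⟨U, ⟨hUo, ?_⟩, hxU⟩
      rintro x' ⟨hx'U, hx'0⟩
      obtain ⟨a', ha', hxa'⟩ := (hf x').1 hx'0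
      exact ⟨a', ha', hxa', (hU x' hx'U a' ha' hxa').trans hab⟩
    · rintro ⟨hx, hx0⟩
      obtain ⟨U, ⟨_, hU⟩, hxU⟩ := Set.mem_sUnion.1 hx
      exact hU ⟨hxU, hx0⟩
  have hfcont : Continuous (fun x : Fin (bsN n) → ℝ => eval x f) := MvPolynomial.continuous_eval f
  have hVclosed : ∀ b, IsClosed (V b) := by
    intro b
    rw [← isOpen_compl_iff, isOpen_iff_mem_nhds]
    intro x hx
    by_cases hx0 : eval x f = 0
    · obtain ⟨a, ha, hxa⟩ := (hf x).1 hx0
      obtain ⟨U, hUo, hxU, hU⟩ := hloc x hx0 a ha hxa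
      filter_upwards [hUo.mem_nhds hxU] with x' hx'
      rintro ⟨a', ha', hxa', hab⟩
      exact hx ⟨a, ha, hxa, (hU x' hx' a' ha' hxa').symm.trans hab⟩
    · have : ∀ᶠ x' in 𝓝 x, eval x' f ≠ 0 := hfcont.continuousAt.eventually_ne hx0
      filter_upwards [this] with x' hx'
      rintro ⟨a', ha', hxa', _⟩
      exact hx' ((hf x').2 ⟨a', ha', hxa'⟩)
  -- sets of inequivalent cocycles are small
  let P : Finset (GL (Fin n) ℂ) → Prop := fun T =>
    (∀ b ∈ T, b ∈ bsC A) ∧ ∀ b ∈ T, ∀ b' ∈ T, bsR A b b' → b = b'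
  have hPcard : ∀ T, P T → T.card ≤ K := by
    intro T hT
    let e := T.equivFin.symm
    refine hK T.card (fun i => V (e i)) (fun i => ?_) (fun i j hij => ?_)
      (fun i => hVopen _) (fun i => hVclosed _)
    · refine ⟨bsX ((e i : GL (Fin n) ℂ) : Matrix (Fin n) (Fin n) ℂ), e i, hT.1 _ (e i).2,
        bsM_bsX _, bsR.refl _ _⟩
    · rw [Set.disjoint_left]
      rintro x ⟨a, ha, hxa, h1⟩ ⟨a', ha', hxa', h2⟩
      have h3 := huniq hxa hxa'
      subst h3
      have h4 := hT.2 _ (e i).2 _ (e j).2 (h1.symm.trans h2)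
      exact hij (e.injective (Subtype.ext h4))
  -- a maximal one
  obtain ⟨T, hT, hmax⟩ : ∃ T, P T ∧ ∀ T', P T' → T'.card ≤ T.card := by
    have h0 : ∃ T, P T ∧ T.card = 0 := ⟨∅, ⟨by simp, by simp⟩, rfl⟩
    have h1 := Nat.findGreatest_spec (P := fun k => ∃ T, P T ∧ T.card = k) (Nat.zero_le K) h0
    obtain ⟨T, hT, hTc⟩ := h1
    refine ⟨T, hT, fun T' hT' => ?_⟩
    rw [hTc]
    exact Nat.le_findGreatest (hPcard T' hT') ⟨T', hT', rfl⟩
  refine ⟨T, fun b hb => (hT.1 b hb).1, fun a ha ha1 => ?_⟩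
  by_contra hcon
  push Not at hcon
  have hnot : ∀ b ∈ T, ¬ bsR A a b := fun b hb ⟨x, hx, h⟩ => hcon b hb x hx h
  have haT : a ∉ T := fun h => hnot a h (bsR.refl _ _)
  have hins : P (insert a T) := by
    refine ⟨fun b hb => ?_, fun b hb b' hb' h => ?_⟩
    · rcases Finset.mem_insert.1 hb with rfl | hb
      · exact ⟨ha, ha1⟩
      · exact hT.1 b hb
    · rcases Finset.mem_insert.1 hb with rfl | hb1 <;> rcases Finset.mem_insert.1 hb' with rfl | hb2
      · rfl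
      · exact absurd h (hnot b' hb2)
      · exact absurd h.symm (hnot b hb1)
      · exact hT.2 b hb1 b' hb2 h
  have := hmax _ hins
  rw [Finset.card_insert_of_notMem haT] at this
  omega

end Pool.Agent.Helper43.RS
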